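import Pool.Agent.N801.PF.Base

/-!
(PL) the lower bound for the weight of the admissible tuples (subtask 797).
-/

set_option autoImplicit false

open Finset

namespace Pool.Agent.N34.PF

open Pool.Agent.N801.PF

lemma pl_exp_le {q : ℝ} (hq : 0 ≤ q) : Real.exp (q - q ^ 2) ≤ 1 + q := by
  have h1 : 1 - (q - q ^ 2) ≤ Real.exp (-(q - q ^ 2)) := by
    have := Real.add_one_le_exp (-(q - q ^ 2)); linarith
  have h0 : 0 < 1 - (q - q ^ 2) := by nlinarith [sq_nonneg (q - 1 / 2)]
  have h2 : Real.exp (q - q ^ 2) * Real.exp (-(q - q ^ 2)) = 1 := by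
    rw [← Real.exp_add]; simp
  have h3 : Real.exp (q - q ^ 2) * (1 - (q - q ^ 2)) ≤ 1 := by
    exact (mul_le_mul_of_nonneg_left h1 (Real.exp_pos _).le).trans h2.le
  have h4 : 1 ≤ (1 + q) * (1 - (q - q ^ 2)) := by nlinarith [pow_nonneg hq 3]
  exact le_of_mul_le_mul_right (h3.trans h4) h0

lemma pl_pow_ge (v : ℕ) {q : ℝ} (hq : 0 ≤ q) (h : (v : ℝ) * q ^ 2 ≤ 1) :
    Real.exp ((v : ℝ) * q - 1) ≤ (1 + q) ^ v := by
  calc Real.exp ((v : ℝ) * q - 1) ≤ Real.exp ((v : ℝ) * (q - q ^ 2)) := by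
        apply Real.exp_le_exp.2; nlinarith
    _ = Real.exp (q - q ^ 2) ^ v := by rw [← Real.exp_nat_mul]
    _ ≤ (1 + q) ^ v := pow_le_pow_left₀ (Real.exp_pos _).le (pl_exp_le hq) v

lemma pl_pow_le (v : ℕ) {q : ℝ} (hq : 0 ≤ q) : (1 + q) ^ v ≤ Real.exp ((v : ℝ) * q) := by
  rw [Real.exp_nat_mul]
  apply pow_le_pow_left₀ (by linarith)
  have := Real.add_one_le_exp q
  linarith

section

variable {ι : Type} [Fintype ι] [DecidableEq ι]

lemma pl_sum_insert {R : Finset ℕ} {om : ℕ → ℝ} (hR : ∀ ρ ∈ R, 1 < ρ) :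
    ∑ x ∈ insert 1 R, (if x = 1 then (1 : ℝ) else om x) = 1 + ∑ ρ ∈ R, om ρ := by
  rw [Finset.sum_insert (fun h => absurd (hR 1 h) (by norm_num)), if_pos rfl]
  congr 1
  apply Finset.sum_congr rfl
  intro ρ hρ
  rw [if_neg (by have := hR ρ hρ; omega)]

lemma pl_sum_all {R : Finset ℕ} {om : ℕ → ℝ} (hR : ∀ ρ ∈ R, 1 < ρ) :
    ∑ r ∈ Fintype.piFinset (fun _ : ι => insert 1 R), Wt om r =
      (1 + ∑ ρ ∈ R, om ρ) ^ Fintype.card ι := by
  unfold Wt
  rw [sum_piFinset_prod (fun _ : ι => insert 1 R) (fun _ x => if x = 1 then (1 : ℝ) else om x)]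
  rw [Finset.prod_congr rfl (fun i _ => pl_sum_insert hR), Finset.prod_const, Finset.card_univ]

/-- the tuples with two coordinates divisible by `p` -/
lemma pl_two {R : Finset ℕ} {om : ℕ → ℝ} {D : ℝ} (hR : ∀ ρ ∈ R, 1 < ρ) (ho : ∀ ρ ∈ R, 0 ≤ om ρ)
    {p : ℕ} (hp : p.Prime)
    (hS : ∑ ρ ∈ R.filter (fun ρ => p ∣ ρ), om ρ ≤ D / p) {i j : ι} (hij : i ≠ j) :
    ∑ r ∈ (Fintype.piFinset (fun _ : ι => insert 1 R)).filter (fun r => p ∣ r i ∧ p ∣ r j),
      Wt om r ≤ (D / p) ^ 2 * (1 + ∑ ρ ∈ R, om ρ) ^ Fintype.card ι := by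
  set t : ι → Finset ℕ := fun k => if k ∈ ({i, j} : Finset ι) then R.filter (fun ρ => p ∣ ρ)
    else insert 1 R with ht
  have hq : 0 ≤ ∑ ρ ∈ R, om ρ := Finset.sum_nonneg ho
  have hS0 : 0 ≤ ∑ ρ ∈ R.filter (fun ρ => p ∣ ρ), om ρ :=
    Finset.sum_nonneg fun ρ hρ => ho ρ (mem_filter.1 hρ).1
  have e1 : (Fintype.piFinset (fun _ : ι => insert 1 R)).filter (fun r => p ∣ r i ∧ p ∣ r j) =
      Fintype.piFinset t := by
    ext r
    rw [mem_filter, Fintype.mem_piFinset, Fintype.mem_piFinset]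
    constructor
    · rintro ⟨h1, h2, h3⟩ k
      rw [ht]
      simp only
      split_ifs with hk
      · rw [mem_insert, mem_singleton] at hk
        have h4 : p ∣ r k := by rcases hk with rfl | rfl <;> assumption
        rw [mem_filter]
        refine ⟨?_, h4⟩
        rcases mem_insert.1 (h1 k) with h5 | h5
        · rw [h5] at h4
          exact absurd (Nat.dvd_one.1 h4) hp.one_lt.ne'
        · exact h5
      · exact h1 k
    · intro h
      refine ⟨fun k => ?_, ?_, ?_⟩
      · have := h k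
        rw [ht] at this
        simp only at this
        split_ifs at this with hk
        · exact mem_insert_of_mem (mem_filter.1 this).1
        · exact this
      · have := h i
        rw [ht] at this
        simp only at this
        rw [if_pos (by simp)] at this
        exact (mem_filter.1 this).2
      · have := h j
        rw [ht] at this
        simp only at this
        rw [if_pos (by simp)] at this
        exact (mem_filter.1 this).2
  rw [e1]
  unfold Wt
  rw [sum_piFinset_prod t (fun _ x => if x = 1 then (1 : ℝ) else om x)]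
  have e2 : ∀ k ∈ (univ : Finset ι), ∑ x ∈ t k, (if x = 1 then (1 : ℝ) else om x) ≤
      (if k ∈ ({i, j} : Finset ι) then D / p else 1) * (1 + ∑ ρ ∈ R, om ρ) := by
    intro k _
    rw [ht]
    simp only
    split_ifs with hk
    · have e3 : ∑ x ∈ R.filter (fun ρ => p ∣ ρ), (if x = 1 then (1 : ℝ) else om x) =
          ∑ ρ ∈ R.filter (fun ρ => p ∣ ρ), om ρ := by
        apply Finset.sum_congr rfl
        intro ρ hρ
        rw [if_neg (by have := hR ρ (mem_filter.1 hρ).1; omega)]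
      rw [e3]
      calc ∑ ρ ∈ R.filter (fun ρ => p ∣ ρ), om ρ ≤ D / p := hS
        _ = D / p * 1 := (mul_one _).symm
        _ ≤ D / p * (1 + ∑ ρ ∈ R, om ρ) :=
            mul_le_mul_of_nonneg_left (by linarith) (hS0.trans hS)
    · rw [pl_sum_insert hR, one_mul]
  have e4 : ∀ k ∈ (univ : Finset ι), 0 ≤ ∑ x ∈ t k, (if x = 1 then (1 : ℝ) else om x) := by
    intro k _
    apply Finset.sum_nonneg
    intro x hx
    split_ifs with h1
    · norm_num
    · apply ho
      rw [ht] at hx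
      simp only at hx
      split_ifs at hx with hk
      · exact (mem_filter.1 hx).1
      · rcases mem_insert.1 hx with h2 | h2
        · exact absurd h2 h1
        · exact h2
  refine (Finset.prod_le_prod e4 e2).trans ?_
  rw [Finset.prod_mul_distrib, Finset.prod_const, Finset.card_univ, Finset.prod_ite_mem,
    Finset.prod_const, Finset.univ_inter, Finset.card_pair hij]

end

theorem pl (hPU : PU) : PL := by
  intro ι _ _ y Z Y R om θ D hA hy hY ho hθ hv hD hS
  have hR : ∀ ρ ∈ R, 1 < ρ := fun ρ hρ => (hA ρ hρ).1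
  set q : ℝ := ∑ ρ ∈ R, om ρ with hqdef
  have hq : 0 ≤ q := Finset.sum_nonneg ho
  set v : ℕ := Fintype.card ι with hvdef
  set All : Finset (ι → ℕ) := Fintype.piFinset (fun _ : ι => insert 1 R) with hAll
  have hW0 : ∀ r ∈ All, 0 ≤ Wt om r := by
    intro r hr
    unfold Wt
    apply Finset.prod_nonneg
    intro i _
    split_ifs with h
    · norm_num
    · have := (Fintype.mem_piFinset.1 hr) i
      rcases mem_insert.1 this with h2 | h2
      · exact absurd h2 h
      · exact ho _ h2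
  -- the three parts
  have hU := hPU ι R om θ (Y : ℝ) (fun ρ hρ => ⟨hR ρ hρ, ho ρ hρ⟩) hθ (by exact_mod_cast hY)
  have hTsub : Tu ι R Y ⊆ All := Finset.filter_subset _ _
  have key : ∀ r ∈ All, Wt om r ≤ (if r ∈ Tu ι R Y then Wt om r else 0) +
      (if (Y : ℝ) ≤ (mm r : ℝ) then Wt om r else 0) +
      ∑ ij ∈ (univ : Finset ι).offDiag, ∑ p ∈ prs y Z,
        (if p ∣ r ij.1 ∧ p ∣ r ij.2 then Wt om r else 0) := by
    intro r hr
    have hw := hW0 r hr
    have h3 : 0 ≤ ∑ ij ∈ (univ : Finset ι).offDiag, ∑ p ∈ prs y Z,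
        (if p ∣ r ij.1 ∧ p ∣ r ij.2 then Wt om r else 0) := by
      apply Finset.sum_nonneg; intro ij _
      apply Finset.sum_nonneg; intro p _
      split_ifs
      · exact hw
      · exact le_rfl
    have h1 : 0 ≤ (if r ∈ Tu ι R Y then Wt om r else 0) := by split_ifs <;> first | exact hw | exact le_rfl
    have h2 : 0 ≤ (if (Y : ℝ) ≤ (mm r : ℝ) then Wt om r else 0) := by
      split_ifs <;> first | exact hw | exact le_rfl
    by_cases c1 : r ∈ Tu ι R Y
    · rw [if_pos c1]; linarith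
    by_cases c2 : (Y : ℝ) ≤ (mm r : ℝ)
    · rw [if_pos c2]; linarith
    have hmem := Fintype.mem_piFinset.1 hr
    have c3 : ∃ i j, i ≠ j ∧ ¬ (r i).Coprime (r j) := by
      by_contra hcon
      push Not at hcon
      apply c1
      rw [mem_Tu]
      refine ⟨fun i => mem_insert.1 (hmem i), hcon, ?_⟩
      have : (mm r : ℝ) < (Y : ℝ) := lt_of_not_ge c2
      exact_mod_cast this.le
    obtain ⟨i, j, hij, hc⟩ := c3
    obtain ⟨p, hp, hpi, hpj⟩ := Nat.Prime.not_coprime_iff_dvd.1 hc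
    have hri : r i ∈ R := by
      rcases mem_insert.1 (hmem i) with h | h
      · rw [h] at hpi; exact absurd (Nat.dvd_one.1 hpi) hp.one_lt.ne'
      · exact h
    have hpm : p ∈ prs y Z := hA.primeFactors hri
      (Nat.mem_primeFactors.2 ⟨hp, hpi, by have := hR _ hri; omega⟩)
    have h4 : Wt om r ≤ ∑ ij ∈ (univ : Finset ι).offDiag, ∑ p ∈ prs y Z,
        (if p ∣ r ij.1 ∧ p ∣ r ij.2 then Wt om r else 0) := by
      have hm : (i, j) ∈ (univ : Finset ι).offDiag := by
        rw [mem_offDiag]; exact ⟨mem_univ _, mem_univ _, hij⟩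
      refine le_trans ?_ (Finset.single_le_sum (f := fun ij : ι × ι => ∑ p ∈ prs y Z,
        (if p ∣ r ij.1 ∧ p ∣ r ij.2 then Wt om r else 0)) (fun ij _ => ?_) hm)
      · refine le_trans ?_ (Finset.single_le_sum (f := fun p : ℕ =>
          (if p ∣ r i ∧ p ∣ r j then Wt om r else 0)) (fun p _ => ?_) hpm)
        · rw [if_pos ⟨hpi, hpj⟩]
        · split_ifs <;> first | exact hw | exact le_rfl
      · apply Finset.sum_nonneg; intro p _
        split_ifs <;> first | exact hw | exact le_rfl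
    linarith
  have hsum := Finset.sum_le_sum key
  rw [Finset.sum_add_distrib, Finset.sum_add_distrib, pl_sum_all hR, ← Finset.sum_filter,
    ← Finset.sum_filter] at hsum
  have hT : All.filter (fun r => r ∈ Tu ι R Y) = Tu ι R Y := by
    ext r
    rw [mem_filter]
    exact ⟨fun h => h.2, fun h => ⟨hTsub h, h⟩⟩
  rw [hT] at hsum
  -- the third part
  have h3 : ∑ r ∈ All, ∑ ij ∈ (univ : Finset ι).offDiag, ∑ p ∈ prs y Z,
        (if p ∣ r ij.1 ∧ p ∣ r ij.2 then Wt om r else 0) ≤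
      (v : ℝ) ^ 2 * D ^ 2 / y * Real.exp ((v : ℝ) * q) := by
    rw [Finset.sum_comm]
    have e1 : ∀ ij ∈ (univ : Finset ι).offDiag, ∑ r ∈ All, ∑ p ∈ prs y Z,
        (if p ∣ r ij.1 ∧ p ∣ r ij.2 then Wt om r else 0) ≤ D ^ 2 / y * Real.exp ((v : ℝ) * q) := by
      intro ij hij
      rw [mem_offDiag] at hij
      rw [Finset.sum_comm]
      calc ∑ p ∈ prs y Z, ∑ r ∈ All, (if p ∣ r ij.1 ∧ p ∣ r ij.2 then Wt om r else 0)
          ≤ ∑ p ∈ prs y Z, (D ^ 2 * ((p : ℝ) ^ 2)⁻¹) * Real.exp ((v : ℝ) * q) := by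
            apply Finset.sum_le_sum
            intro p hp
            have hpp := (mem_prs.1 hp).2
            rw [← Finset.sum_filter]
            refine (pl_two hR ho hpp (hS p hpp) hij.2.2).trans ?_
            rw [div_pow, div_eq_mul_inv]
            exact mul_le_mul_of_nonneg_left (pl_pow_le v hq) (by positivity)
        _ = D ^ 2 * (∑ p ∈ prs y Z, ((p : ℝ) ^ 2)⁻¹) * Real.exp ((v : ℝ) * q) := by
            rw [← Finset.sum_mul, ← Finset.mul_sum]
        _ ≤ D ^ 2 * (y : ℝ)⁻¹ * Real.exp ((v : ℝ) * q) := by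
            apply mul_le_mul_of_nonneg_right _ (Real.exp_pos _).le
            apply mul_le_mul_of_nonneg_left _ (sq_nonneg _)
            calc ∑ p ∈ prs y Z, ((p : ℝ) ^ 2)⁻¹ ≤ ∑ p ∈ Ioc y Z, ((p : ℝ) ^ 2)⁻¹ := by
                  apply Finset.sum_le_sum_of_subset_of_nonneg (Finset.filter_subset _ _)
                  intro p _ _; positivity
              _ ≤ (y : ℝ)⁻¹ := by
                  rcases le_or_gt y Z with hyZ | hyZ
                  · refine (sum_Ioc_inv_sq_le_sub (by omega) hyZ).trans ?_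
                    have : (0 : ℝ) ≤ (Z : ℝ)⁻¹ := by positivity
                    linarith
                  · rw [Finset.Ioc_eq_empty (by omega), Finset.sum_empty]
                    positivity
        _ = D ^ 2 / y * Real.exp ((v : ℝ) * q) := by rw [div_eq_mul_inv]
    refine (Finset.sum_le_sum e1).trans ?_
    rw [Finset.sum_const, nsmul_eq_mul, offDiag_card, Finset.card_univ, ← hvdef]
    have e2 : ((v * v - v : ℕ) : ℝ) ≤ (v : ℝ) ^ 2 := by
      have : v * v - v ≤ v ^ 2 := by rw [sq]; exact Nat.sub_le _ _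
      exact_mod_cast this
    calc ((v * v - v : ℕ) : ℝ) * (D ^ 2 / y * Real.exp ((v : ℝ) * q))
        ≤ (v : ℝ) ^ 2 * (D ^ 2 / y * Real.exp ((v : ℝ) * q)) := by
          apply mul_le_mul_of_nonneg_right e2; positivity
      _ = (v : ℝ) ^ 2 * D ^ 2 / y * Real.exp ((v : ℝ) * q) := by ring
  have hlow := pl_pow_ge v hq hv
  linarith

end Pool.Agent.N34.PF
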